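import Pool.Agent.Y21.CUB.C
import Pool.Agent.Y471.CK.Dens

/-!
# The measures `P_t` and their tails
-/

set_option autoImplicit false

namespace Pool.Agent.N708.MD

open Finset W93.CU Pool.Agent.Y21.CUB

/-- value of a word (lowest digit first) with an additional leading digit one -/
def vt : List Bool → ℕ
  | [] => 1
  | true :: w => 2 * vt w + 1
  | false :: w => 2 * vt w

lemma vt_pos (w : List Bool) : 1 ≤ vt w := by
  induction w with
  | nil => exact le_rfl
  | cons b w ih => cases b <;> simp only [vt] <;> omega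

lemma exists_vt : ∀ t : ℕ, 1 ≤ t → ∃ w : List Bool, vt w = t := by
  intro t
  induction t using Nat.strong_induction_on with
  | _ t ih =>
    intro h
    rcases Nat.eq_or_lt_of_le h with h1 | h1
    · exact ⟨[], h1⟩
    · obtain ⟨w, hw⟩ := ih (t / 2) (by omega) (by omega)
      rcases Nat.even_or_odd' t with ⟨c, hc | hc⟩
      · refine ⟨false :: w, ?_⟩
        simp only [vt, hw]; omega
      · refine ⟨true :: w, ?_⟩
        simp only [vt, hw]; omega

/-- `T` is the function of the tails of `f`, which vanishes outside `[-L, L]` -/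
structure Good (f T : ℤ → ℝ) (L : ℕ) : Prop where
  diff : ∀ d, f d = T d - T (d + 1)
  lo : ∀ d : ℤ, d ≤ -(L : ℤ) → T d = 1
  hi : ∀ d : ℤ, (L : ℤ) < d → T d = 0

lemma Good.sum_up {f T : ℤ → ℝ} {L : ℕ} (h : Good f T L) (k : ℤ) :
    HasSum (fun d : ℕ => f (k + d)) (T k) := by
  obtain ⟨M, hM⟩ : ∃ M : ℕ, (L : ℤ) < k + M := ⟨(L + 1 - k).toNat, by omega⟩
  have hz : ∀ d ∉ range M, f (k + (d : ℕ)) = 0 := by
    intro d hd
    rw [mem_range, not_lt] at hd
    rw [h.diff, h.hi _ (by omega), h.hi _ (by omega), sub_zero]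
  have hs : HasSum (fun d : ℕ => f (k + d)) (∑ d ∈ range M, f (k + (d : ℕ))) :=
    hasSum_sum_of_ne_finset_zero hz
  have e : ∀ M : ℕ, ∑ d ∈ range M, f (k + (d : ℕ)) = T k - T (k + M) := by
    intro M
    induction M with
    | zero => simp
    | succ M ih =>
      rw [sum_range_succ, ih, h.diff]
      push_cast
      rw [show k + (M : ℤ) + 1 = k + ((M : ℤ) + 1) by ring]
      ring
  rw [e M, h.hi _ hM, sub_zero] at hs
  exact hs

lemma Good.sum_down {f T : ℤ → ℝ} {L : ℕ} (h : Good f T L) (k : ℤ) :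
    HasSum (fun d : ℕ => f (k - d)) (1 - T (k + 1)) := by
  obtain ⟨M, hM⟩ : ∃ M : ℕ, k + 1 - M ≤ -(L : ℤ) := ⟨(L + 1 + k).toNat, by omega⟩
  have hz : ∀ d ∉ range M, f (k - (d : ℕ)) = 0 := by
    intro d hd
    rw [mem_range, not_lt] at hd
    rw [h.diff, h.lo _ (by omega), h.lo _ (by omega), sub_self]
  have hs : HasSum (fun d : ℕ => f (k - d)) (∑ d ∈ range M, f (k - (d : ℕ))) :=
    hasSum_sum_of_ne_finset_zero hz
  have e : ∀ M : ℕ, ∑ d ∈ range M, f (k - (d : ℕ)) = T (k + 1 - M) - T (k + 1) := by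
    intro M
    induction M with
    | zero => simp
    | succ M ih =>
      rw [sum_range_succ, ih, h.diff]
      push_cast
      rw [show k - (M : ℤ) + 1 = k + 1 - (M : ℤ) by ring,
        show k + 1 - ((M : ℤ) + 1) = k - (M : ℤ) by ring]
      ring
  rw [e M, h.lo _ hM] at hs
  exact hs

/-- the recursion for the measures `P_t` -/
structure Rec (P : ℕ → ℤ → ℝ) : Prop where
  one : ∀ d : ℤ, P 1 d = if d = 0 then 1 else 0
  even : ∀ n : ℕ, 1 ≤ n → ∀ d : ℤ, P (2 * n) d = P n d
  odd : ∀ n : ℕ, 1 ≤ n → ∀ d : ℤ, P (2 * n + 1) d = 1 / 2 * P n (d - 1) + 1 / 2 * P (n + 1) (d + 1)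

/-- tail of the measure of the word `w` (first component) and of the next number -/
noncomputable def ta (w : List Bool) : (ℤ → ℝ) × (ℤ → ℝ) := tlp (1 / 2) w

lemma ta_true1 (w : List Bool) (k : ℤ) : (ta (true :: w)).1 k =
    1 / 2 * (ta w).1 (k - 1) + 1 / 2 * (ta w).2 (k + 1) := by
  show 1 / 2 * (tlp (1/2) w).1 (k-1) + (1 - 1 / 2) * (tlp (1/2) w).2 (k+1) = _
  unfold ta
  norm_num

lemma ta_true2 (w : List Bool) (k : ℤ) : (ta (true :: w)).2 k = (ta w).2 k := rfl
lemma ta_false1 (w : List Bool) (k : ℤ) : (ta (false :: w)).1 k = (ta w).1 k := rfl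

lemma ta_false2 (w : List Bool) (k : ℤ) : (ta (false :: w)).2 k =
    1 / 2 * (ta w).1 (k - 1) + 1 / 2 * (ta w).2 (k + 1) := by
  show 1 / 2 * (tlp (1/2) w).1 (k-1) + (1 - 1 / 2) * (tlp (1/2) w).2 (k+1) = _
  unfold ta
  norm_num

lemma good_one {f : ℤ → ℝ} (hf : ∀ d : ℤ, f d = if d = 0 then 1 else 0) : Good f one0 0 := by
  refine ⟨fun d => ?_, fun d hd => ?_, fun d hd => ?_⟩
  · rw [hf]
    unfold one0
    rcases lt_trichotomy d 0 with h | h | h
    · rw [if_neg (by omega), if_pos (by omega), if_pos (by omega)]; norm_num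
    · rw [if_pos h, if_pos (by omega), if_neg (by omega)]; norm_num
    · rw [if_neg (by omega), if_neg (by omega), if_neg (by omega)]; norm_num
  · unfold one0; rw [if_pos (by simpa using hd)]
  · unfold one0; rw [if_neg (by simpa using hd)]

lemma Good.mono {f T : ℤ → ℝ} {L L' : ℕ} (h : Good f T L) (hL : L ≤ L') : Good f T L' :=
  ⟨h.diff, fun d hd => h.lo d (by omega), fun d hd => h.hi d (by omega)⟩

lemma Good.mix {f g h T U V : ℤ → ℝ} {L : ℕ} (hf : Good f T L) (hg : Good g U L)
    (hh : ∀ d, h d = 1 / 2 * f (d - 1) + 1 / 2 * g (d + 1))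
    (hV : ∀ k, V k = 1 / 2 * T (k - 1) + 1 / 2 * U (k + 1)) : Good h V (L + 1) := by
  refine ⟨fun d => ?_, fun d hd => ?_, fun d hd => ?_⟩
  · rw [hh, hV, hV, hf.diff, hg.diff, show d - 1 + 1 = d + 1 - 1 by ring]
    ring
  · push_cast at hd
    rw [hV, hf.lo _ (by omega), hg.lo _ (by omega)]
    norm_num
  · push_cast at hd
    rw [hV, hf.hi _ (by omega), hg.hi _ (by omega)]
    norm_num

lemma Good.congr {f g T U : ℤ → ℝ} {L : ℕ} (hf : Good f T L) (hg : ∀ d, g d = f d)
    (hU : ∀ d, U d = T d) : Good g U L :=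
  ⟨fun d => by rw [hg, hU, hU, hf.diff], fun d hd => by rw [hU, hf.lo d hd],
    fun d hd => by rw [hU, hf.hi d hd]⟩

theorem good_vt {P : ℕ → ℤ → ℝ} (hP : Rec P) (w : List Bool) :
    Good (P (vt w)) (ta w).1 w.length ∧ Good (P (vt w + 1)) (ta w).2 w.length := by
  induction w with
  | nil =>
    refine ⟨good_one hP.one, good_one fun d => ?_⟩
    show P (2 * 1) d = _
    rw [hP.even 1 le_rfl, hP.one]
  | cons b w ih =>
    obtain ⟨h1, h2⟩ := ih
    have hv := vt_pos w
    have hl : (b :: w).length = w.length + 1 := rfl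
    rw [hl]
    cases b with
    | true =>
      refine ⟨Good.mix h1 h2 (fun d => hP.odd _ hv d) (fun k => ta_true1 w k), ?_⟩
      refine (h2.mono (Nat.le_succ _)).congr (fun d => ?_) (fun k => ta_true2 w k)
      show P (2 * vt w + 1 + 1) d = _
      rw [show 2 * vt w + 1 + 1 = 2 * (vt w + 1) by ring, hP.even _ (by omega)]
    | false =>
      refine ⟨(h1.mono (Nat.le_succ _)).congr (fun d => ?_) (fun k => ta_false1 w k), ?_⟩
      · show P (2 * vt w) d = _
        rw [hP.even _ hv]
      · exact Good.mix h1 h2 (fun d => hP.odd _ hv d) (fun k => ta_false2 w k)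

/-! ### the medians, in terms of words -/

/-- upper half -/
noncomputable def up (w : List Bool) : ℝ := (ta w).1 0
/-- lower half -/
noncomputable def dn (w : List Bool) : ℝ := 1 - (ta w).1 1

lemma up_true (w : List Bool) : up (true :: w) = pos (1 / 2) w.reverse := by
  rw [← tail_pos (1/2) (by norm_num) (by norm_num) w.reverse, List.reverse_reverse]
  rfl

lemma dn_true (w : List Bool) : dn (true :: w) = pos (1 / 2) (w.map not).reverse := by
  have h := tail_one (1/2) (by norm_num) (by norm_num) w.reverse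
  rw [List.reverse_reverse] at h
  have e : dn (true :: w) = 1 - (1 / 2 * (tlp (1/2) w).1 (1 - 1) +
    (1 - 1 / 2) * (tlp (1/2) w).2 (1 + 1)) := rfl
  rw [e, h, List.map_reverse]
  norm_num

lemma up_false (w : List Bool) : up (false :: w) = up w := rfl
lemma dn_false (w : List Bool) : dn (false :: w) = dn w := rfl

lemma up_nil : up [] = 1 := by
  show one0 0 = 1
  norm_num [one0]

lemma dn_nil : dn [] = 1 := by
  show 1 - one0 1 = 1
  norm_num [one0]

theorem up_ge (w : List Bool) : 1 / 2 ≤ up w := by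
  induction w with
  | nil => rw [up_nil]; norm_num
  | cons b w ih =>
    cases b with
    | true => rw [up_true]; exact pos_ge _ le_rfl (by norm_num) _
    | false => rw [up_false]; exact ih

theorem dn_ge (w : List Bool) : 1 / 2 ≤ dn w := by
  induction w with
  | nil => rw [dn_nil]; norm_num
  | cons b w ih =>
    cases b with
    | true => rw [dn_true]; exact pos_ge _ le_rfl (by norm_num) _
    | false => rw [dn_false]; exact ih

lemma eq_iff_gaps (v : List Bool) : pos (1 / 2) v.reverse = 1 / 2 ↔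
    ∀ g ∈ gaps v, v.count false ≤ g := by
  rw [pos_eq_iff (1/2) le_rfl (by norm_num), longRuns_iff, List.reverse_reverse]
  constructor
  · rintro (h | ⟨_, h⟩)
    · intro g _
      have : v.count false = 0 := List.count_eq_zero.mpr (by rwa [List.mem_reverse] at h)
      omega
    · exact h
  · intro h
    exact Or.inr ⟨rfl, h⟩

theorem up_eq_iff (w : List Bool) : up (true :: w) = 1 / 2 ↔
    ∀ g ∈ gaps w, w.count false ≤ g := by
  rw [up_true, eq_iff_gaps]

theorem dn_eq_iff (w : List Bool) : dn (true :: w) = 1 / 2 ↔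
    ∀ g ∈ gaps (w.map not), w.count true ≤ g := by
  rw [dn_true, eq_iff_gaps, (count_not w).1]

lemma gap_bound (v : List Bool) (h : pos (1 / 2) v.reverse ≠ 1 / 2) :
    1 / 2 + 1 / 2 * (1 / 4 : ℝ) ^ (min (v.count false) (v.count true + 1)) ≤
      pos (1 / 2) v.reverse := by
  have hl : ¬ LongRuns false v.reverse := by
    intro hl
    exact h ((pos_eq_iff (1/2) le_rfl (by norm_num) _).mpr (Or.inr ⟨rfl, hl⟩))
  have := pos_poor (1/2) le_rfl (by norm_num) _ hl
  rw [List.count_reverse, List.count_reverse] at this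
  norm_num at this ⊢
  exact this

theorem up_gap (w : List Bool) (h : up (true :: w) ≠ 1 / 2) :
    1 / 2 + 1 / 2 * (1 / 4 : ℝ) ^ (min (w.count false) (w.count true + 1)) ≤ up (true :: w) := by
  rw [up_true] at h ⊢
  exact gap_bound w h

theorem dn_gap (w : List Bool) (h : dn (true :: w) ≠ 1 / 2) :
    1 / 2 + 1 / 2 * (1 / 4 : ℝ) ^ (min (w.count true) (w.count false + 1)) ≤ dn (true :: w) := by
  rw [dn_true] at h ⊢
  have := gap_bound (w.map not) h
  rwa [(count_not w).1, (count_not w).2] at this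

end Pool.Agent.N708.MD
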