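import Pool.Agent.N708.MD.A

/-!
# Runs of a word and distances between the digits
-/

set_option autoImplicit false

namespace Pool.Agent.N708.MD

open Finset W93.CU Pool.Agent.Y21.CUB

lemma tb_odd_zero (n : ℕ) : (2 * n + 1).testBit 0 = true := by simp [Nat.testBit_zero]
lemma tb_even_zero (n : ℕ) : (2 * n).testBit 0 = false := by simp [Nat.testBit_zero]
lemma tb_odd_succ (n i : ℕ) : (2 * n + 1).testBit (i + 1) = n.testBit i := by
  rw [Nat.testBit_add_one]; congr 1; omega
lemma tb_even_succ (n i : ℕ) : (2 * n).testBit (i + 1) = n.testBit i := by
  rw [Nat.testBit_add_one]; congr 1; omega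
lemma tb_one (i : ℕ) : (1 : ℕ).testBit i = true ↔ i = 0 := by
  cases i with
  | zero => simp
  | succ i => rw [Nat.testBit_add_one]; simp

/-- all runs long, if the first one is prolonged by `r` -/
def D (K r : ℕ) (v : List Bool) : Prop := K ≤ r + (gp v).1 ∧ ∀ g ∈ (gp v).2, K ≤ g

lemma D_zero (K : ℕ) (v : List Bool) : D K 0 v ↔ ∀ g ∈ gaps v, K ≤ g := by
  unfold D gaps
  rw [List.forall_mem_cons, zero_add]

lemma D_nil (K r : ℕ) : D K r [] ↔ K ≤ r := by simp [D, gp]
lemma D_true (K r : ℕ) (v : List Bool) : D K r (true :: v) ↔ D K (r + 1) v := by
  unfold D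
  simp only [gp]
  rw [show r + ((gp v).1 + 1) = r + 1 + (gp v).1 by ring]
lemma D_false (K r : ℕ) (v : List Bool) : D K r (false :: v) ↔ K ≤ r ∧ D K 0 v := by
  unfold D
  simp only [gp, List.forall_mem_cons, add_zero, zero_add]

/-- distances of the ones -/
lemma D_ones (K : ℕ) (w : List Bool) : ∀ r : ℕ, D K r (w.map not) ↔
    (∀ j, (vt w).testBit j = true → K < j + (r + 1)) ∧
    (∀ i j, i < j → (vt w).testBit i = true → (vt w).testBit j = true → K < j - i) := by
  induction w with
  | nil =>
    intro r
    show D K r [] ↔ _
    rw [D_nil]
    simp only [vt, tb_one]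
    constructor
    · intro h
      exact ⟨fun j hj => by omega, fun i j hij hi hj => by omega⟩
    · intro h
      have := h.1 0 rfl
      omega
  | cons b w ih =>
    intro r
    cases b with
    | false =>
      show D K r (true :: w.map not) ↔ _
      rw [D_true, ih]
      simp only [vt]
      constructor
      · rintro ⟨h1, h2⟩
        refine ⟨fun j hj => ?_, fun i j hij hi hj => ?_⟩
        · cases j with
          | zero => rw [tb_even_zero] at hj; exact absurd hj (by decide)
          | succ j => rw [tb_even_succ] at hj; have := h1 j hj; omega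
        · cases i with
          | zero => rw [tb_even_zero] at hi; exact absurd hi (by decide)
          | succ i =>
            obtain ⟨j, rfl⟩ : ∃ j', j = j' + 1 := ⟨j - 1, by omega⟩
            rw [tb_even_succ] at hi hj
            have := h2 i j (by omega) hi hj
            omega
      · rintro ⟨h1, h2⟩
        refine ⟨fun j hj => ?_, fun i j hij hi hj => ?_⟩
        · have := h1 (j + 1) (by rw [tb_even_succ]; exact hj)
          omega
        · have := h2 (i + 1) (j + 1) (by omega) (by rw [tb_even_succ]; exact hi)
            (by rw [tb_even_succ]; exact hj)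
          omega
    | true =>
      show D K r (false :: w.map not) ↔ _
      rw [D_false, ih]
      simp only [vt]
      constructor
      · rintro ⟨h0, h1, h2⟩
        refine ⟨fun j hj => ?_, fun i j hij hi hj => ?_⟩
        · omega
        · obtain ⟨j, rfl⟩ : ∃ j', j = j' + 1 := ⟨j - 1, by omega⟩
          rw [tb_odd_succ] at hj
          cases i with
          | zero => have := h1 j hj; omega
          | succ i =>
            rw [tb_odd_succ] at hi
            have := h2 i j (by omega) hi hj
            omega
      · rintro ⟨h1, h2⟩
        have h0 := h1 0 (tb_odd_zero _)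
        refine ⟨by omega, fun j hj => ?_, fun i j hij hi hj => ?_⟩
        · have := h2 0 (j + 1) (by omega) (tb_odd_zero _) (by rw [tb_odd_succ]; exact hj)
          omega
        · have := h2 (i + 1) (j + 1) (by omega) (by rw [tb_odd_succ]; exact hi)
            (by rw [tb_odd_succ]; exact hj)
          omega

/-- distances of the zeros and the highest place -/
lemma D_zeros (K : ℕ) (w : List Bool) : ∀ r : ℕ, D K r w ↔
    (∀ j, j ≤ w.length → (j = w.length ∨ (vt w).testBit j = false) → K < j + (r + 1)) ∧
    (∀ i j, i < j → j ≤ w.length → (vt w).testBit i = false →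
      (j = w.length ∨ (vt w).testBit j = false) → K < j - i) := by
  induction w with
  | nil =>
    intro r
    rw [D_nil]
    constructor
    · intro h
      exact ⟨fun j hj _ => by omega, fun i j hij hj _ => by simp at hj; omega⟩
    · intro h
      have := h.1 0 le_rfl (Or.inl rfl)
      omega
  | cons b w ih =>
    intro r
    have hl : (b :: w).length = w.length + 1 := rfl
    rw [hl]
    cases b with
    | true =>
      rw [D_true, ih]
      simp only [vt]
      constructor
      · rintro ⟨h1, h2⟩
        refine ⟨fun j hj1 hj => ?_, fun i j hij hj1 hi hj => ?_⟩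
        · cases j with
          | zero => rw [tb_odd_zero] at hj; simp at hj
          | succ j =>
            rw [tb_odd_succ] at hj
            have := h1 j (by omega) (hj.imp (by omega) id)
            omega
        · cases i with
          | zero => rw [tb_odd_zero] at hi; exact absurd hi (by decide)
          | succ i =>
            obtain ⟨j, rfl⟩ : ∃ j', j = j' + 1 := ⟨j - 1, by omega⟩
            rw [tb_odd_succ] at hi hj
            have := h2 i j (by omega) (by omega) hi (hj.imp (by omega) id)
            omega
      · rintro ⟨h1, h2⟩
        refine ⟨fun j hj1 hj => ?_, fun i j hij hj1 hi hj => ?_⟩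
        · have := h1 (j + 1) (by omega) (by rw [tb_odd_succ]; exact hj.imp (by omega) id)
          omega
        · have := h2 (i + 1) (j + 1) (by omega) (by omega) (by rw [tb_odd_succ]; exact hi)
            (by rw [tb_odd_succ]; exact hj.imp (by omega) id)
          omega
    | false =>
      rw [D_false, ih]
      simp only [vt]
      constructor
      · rintro ⟨h0, h1, h2⟩
        refine ⟨fun j hj1 hj => by omega, fun i j hij hj1 hi hj => ?_⟩
        obtain ⟨j, rfl⟩ : ∃ j', j = j' + 1 := ⟨j - 1, by omega⟩
        rw [tb_even_succ] at hj
        cases i with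
        | zero => have := h1 j (by omega) (hj.imp (by omega) id); omega
        | succ i =>
          rw [tb_even_succ] at hi
          have := h2 i j (by omega) (by omega) hi (hj.imp (by omega) id)
          omega
      · rintro ⟨h1, h2⟩
        have h0 := h1 0 (Nat.zero_le _) (Or.inr (tb_even_zero _))
        refine ⟨by omega, fun j hj1 hj => ?_, fun i j hij hj1 hi hj => ?_⟩
        · have := h2 0 (j + 1) (by omega) (by omega) (tb_even_zero _)
            (by rw [tb_even_succ]; exact hj.imp (by omega) id)
          omega
        · have := h2 (i + 1) (j + 1) (by omega) (by omega) (by rw [tb_even_succ]; exact hi)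
            (by rw [tb_even_succ]; exact hj.imp (by omega) id)
          omega

/-- number of ones -/
def s (n : ℕ) : ℕ := (Nat.digits 2 n).sum
/-- number of zero digits -/
def z (n : ℕ) : ℕ := (Nat.digits 2 n).count 0

lemma digits_odd (n : ℕ) : Nat.digits 2 (2 * n + 1) = 1 :: Nat.digits 2 n := by
  have := Nat.digits_add 2 (by norm_num) 1 n (by norm_num) (Or.inl (by norm_num))
  rwa [add_comm 1] at this

lemma digits_even (n : ℕ) (hn : 1 ≤ n) : Nat.digits 2 (2 * n) = 0 :: Nat.digits 2 n := by
  have := Nat.digits_add 2 (by norm_num) 0 n (by norm_num) (Or.inr (by omega))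
  rwa [zero_add] at this

lemma s_vt (w : List Bool) : s (vt w) = w.count true + 1 := by
  induction w with
  | nil => simp [vt, s]
  | cons b w ih =>
    unfold s at ih ⊢
    cases b with
    | true => simp only [vt, digits_odd, List.sum_cons, ih, List.count_cons_self]; ring
    | false =>
      simp only [vt, digits_even _ (vt_pos w), List.sum_cons, ih]
      rw [List.count_cons_of_ne (by decide)]; ring

lemma z_vt (w : List Bool) : z (vt w) = w.count false := by
  induction w with
  | nil => simp [vt, z]
  | cons b w ih =>
    unfold z at ih ⊢
    cases b with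
    | true =>
      simp only [vt, digits_odd]
      rw [List.count_cons_of_ne (by decide), List.count_cons_of_ne (by decide), ih]
    | false =>
      simp only [vt, digits_even _ (vt_pos w), List.count_cons_self, ih]

lemma log_vt (w : List Bool) : Nat.log 2 (vt w) = w.length := by
  induction w with
  | nil => simp [vt]
  | cons b w ih =>
    have hv := vt_pos w
    have h : ∀ c : ℕ, c < 2 → Nat.log 2 (2 * vt w + c) = w.length + 1 := by
      intro c hc
      rw [Nat.log_of_one_lt_of_le (by norm_num) (by omega), show (2 * vt w + c) / 2 = vt w by omega,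
        ih]
    cases b with
    | true => exact h 1 (by norm_num)
    | false => exact h 0 (by norm_num)

/-- the equality cases for the upper half, odd numbers -/
theorem up_eq_bits (w : List Bool) : up (true :: w) = 1 / 2 ↔
    ∀ i j, i < j → j ≤ Nat.log 2 (vt (true :: w)) →
      (i = 0 ∨ (vt (true :: w)).testBit i = false) →
      (j = Nat.log 2 (vt (true :: w)) ∨ (vt (true :: w)).testBit j = false) →
      z (vt (true :: w)) < j - i := by
  rw [up_eq_iff, ← D_zero, D_zeros, z_vt, log_vt, List.count_cons_of_ne (by decide)]
  have hl : (true :: w).length = w.length + 1 := rfl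
  rw [hl]
  simp only [vt]
  constructor
  · rintro ⟨h1, h2⟩ i j hij hj1 hi hj
    obtain ⟨j, rfl⟩ : ∃ j', j = j' + 1 := ⟨j - 1, by omega⟩
    rw [tb_odd_succ] at hj
    cases i with
    | zero => have := h1 j (by omega) (hj.imp (by omega) id); omega
    | succ i =>
      rw [tb_odd_succ] at hi
      have := h2 i j (by omega) (by omega) (hi.resolve_left (by omega)) (hj.imp (by omega) id)
      omega
  · intro h
    refine ⟨fun j hj1 hj => ?_, fun i j hij hj1 hi hj => ?_⟩
    · have := h 0 (j + 1) (by omega) (by omega) (Or.inl rfl)
        (by rw [tb_odd_succ]; exact hj.imp (by omega) id)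
      omega
    · have := h (i + 1) (j + 1) (by omega) (by omega) (Or.inr (by rw [tb_odd_succ]; exact hi))
        (by rw [tb_odd_succ]; exact hj.imp (by omega) id)
      omega

/-- the equality cases for the lower half, odd numbers -/
theorem dn_eq_bits (w : List Bool) : dn (true :: w) = 1 / 2 ↔
    ∀ i j, i < j → (vt (true :: w)).testBit i = true → (vt (true :: w)).testBit j = true →
      s (vt (true :: w)) ≤ j - i + 1 := by
  rw [dn_eq_iff, ← D_zero, D_ones, s_vt, List.count_cons_self]
  simp only [vt]
  constructor
  · rintro ⟨h1, h2⟩ i j hij hi hj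
    obtain ⟨j, rfl⟩ : ∃ j', j = j' + 1 := ⟨j - 1, by omega⟩
    rw [tb_odd_succ] at hj
    cases i with
    | zero => have := h1 j hj; omega
    | succ i =>
      rw [tb_odd_succ] at hi
      have := h2 i j (by omega) hi hj
      omega
  · intro h
    refine ⟨fun j hj => ?_, fun i j hij hi hj => ?_⟩
    · have := h 0 (j + 1) (by omega) (tb_odd_zero _) (by rw [tb_odd_succ]; exact hj)
      omega
    · have := h (i + 1) (j + 1) (by omega) (by rw [tb_odd_succ]; exact hi)
        (by rw [tb_odd_succ]; exact hj)
      omega

end Pool.Agent.N708.MD
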