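import Pool.Agent.N708.MD.B

/-!
# The measures `μ_t`
-/

set_option autoImplicit false

namespace Pool.Agent.N708.MD

open Finset W93.CU Pool.Agent.Y21.CUB Filter Topology
open Pool.Agent.Y471.CK (dd ind dd_odd dd_even dd_zero pt S)

/-- tail of `μ_1` -/
noncomputable def tau (k : ℤ) : ℝ := if k ≤ 1 then 1 - (1 / 2 : ℝ) ^ (2 - k).toNat else 0

lemma tau_rec (k : ℤ) : tau k = 1 / 2 * one0 (k - 1) + 1 / 2 * tau (k + 1) := by
  unfold tau one0
  rcases lt_trichotomy k 1 with h | h | h
  · rw [if_pos (by omega), if_pos (by omega), if_pos (by omega)]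
    have e : (2 - k).toNat = (2 - (k + 1)).toNat + 1 := by omega
    rw [e, pow_succ]
    ring
  · subst h
    norm_num
  · rw [if_neg (by omega), if_neg (by omega), if_neg (by omega)]
    norm_num

lemma tau_zero (k : ℤ) (hk : 2 ≤ k) : tau k = 0 := by
  unfold tau
  rw [if_neg (by omega)]

lemma dd_one (M : ℕ) : ∀ k : ℤ, 2 ≤ k + M → dd 1 M k = tau k := by
  induction M with
  | zero =>
    intro k hk
    rw [tau_zero k (by simpa using hk)]
    unfold dd ind
    simp only [pow_zero, range_one, sum_singleton, zero_add, Pool.Agent.Y471.CK.s_zero,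
      Pool.Agent.Y471.CK.s_one]
    rw [if_neg (by push_cast at hk ⊢; omega)]
    norm_num
  | succ M ih =>
    intro k hk
    have h := dd_odd 0 M k
    simp only [mul_zero, zero_add] at h
    rw [h, dd_zero, ih (k + 1) (by push_cast at hk; omega), tau_rec k]
    ring

/-- tails of `μ_t` and `μ_{t+1}` -/
noncomputable def mt (u : List Bool) : (ℤ → ℝ) × (ℤ → ℝ) := tl tau tau u

lemma mt_true1 (w : List Bool) (k : ℤ) : (mt (true :: w)).1 k =
    (mt w).1 (k - 1) / 2 + (mt w).2 (k + 1) / 2 := rfl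
lemma mt_true2 (w : List Bool) (k : ℤ) : (mt (true :: w)).2 k = (mt w).2 k := rfl
lemma mt_false1 (w : List Bool) (k : ℤ) : (mt (false :: w)).1 k = (mt w).1 k := rfl
lemma mt_false2 (w : List Bool) (k : ℤ) : (mt (false :: w)).2 k =
    (mt w).1 (k - 1) / 2 + (mt w).2 (k + 1) / 2 := rfl

lemma dd_mt (u : List Bool) : ∀ k : ℤ, ∃ M0 : ℕ, ∀ M, M0 ≤ M →
    dd (vt u) M k = (mt u).1 k ∧ dd (vt u + 1) M k = (mt u).2 k := by
  induction u with
  | nil =>
    intro k
    refine ⟨(2 - k).toNat + 1, fun M hM => ⟨dd_one M k (by omega), ?_⟩⟩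
    obtain ⟨m, rfl⟩ := Nat.exists_eq_add_of_le' (show 1 ≤ M by omega)
    show dd (2 * 1) (m + 1) k = tau k
    rw [dd_even]
    exact dd_one m k (by omega)
  | cons b u ih =>
    intro k
    obtain ⟨A, hA⟩ := ih (k - 1)
    obtain ⟨B, hB⟩ := ih k
    obtain ⟨C, hC⟩ := ih (k + 1)
    refine ⟨A + B + C + 1, fun M hM => ?_⟩
    obtain ⟨m, rfl⟩ := Nat.exists_eq_add_of_le' (show 1 ≤ M by omega)
    cases b with
    | true =>
      refine ⟨?_, ?_⟩
      · show dd (2 * vt u + 1) (m + 1) k = _
        rw [dd_odd, (hA m (by omega)).1, (hC m (by omega)).2, mt_true1]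
      · show dd (2 * vt u + 1 + 1) (m + 1) k = _
        rw [show 2 * vt u + 1 + 1 = 2 * (vt u + 1) by ring, dd_even, (hB m (by omega)).2, mt_true2]
    | false =>
      refine ⟨?_, ?_⟩
      · show dd (2 * vt u) (m + 1) k = _
        rw [dd_even, (hB m (by omega)).1, mt_false1]
      · show dd (2 * vt u + 1) (m + 1) k = _
        rw [dd_odd, (hA m (by omega)).1, (hC m (by omega)).2, mt_false2]

lemma mt_rel (u : List Bool) : ∀ k : ℤ,
    (mt u).1 k = 1 / 2 * (ta u).1 (k - 1) + 1 / 2 * (mt u).1 (k + 1) ∧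
    (mt u).2 k = 1 / 2 * (ta u).2 (k - 1) + 1 / 2 * (mt u).2 (k + 1) := by
  induction u with
  | nil => exact fun k => ⟨tau_rec k, tau_rec k⟩
  | cons b u ih =>
    intro k
    have key : (mt u).1 (k - 1) / 2 + (mt u).2 (k + 1) / 2 =
        1 / 2 * (1 / 2 * (ta u).1 (k - 1 - 1) + 1 / 2 * (ta u).2 (k - 1 + 1)) +
        1 / 2 * ((mt u).1 (k + 1 - 1) / 2 + (mt u).2 (k + 1 + 1) / 2) := by
      rw [(ih (k - 1)).1, (ih (k + 1)).2, show k - 1 + 1 = k by ring, show k + 1 - 1 = k by ring]
      ring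
    cases b with
    | true =>
      refine ⟨?_, (ih k).2⟩
      rw [mt_true1, mt_true1, ta_true1]
      exact key
    | false =>
      refine ⟨(ih k).1, ?_⟩
      rw [mt_false2, mt_false2, ta_false2]
      exact key

lemma mt_zero (u : List Bool) : ∀ k : ℤ, (u.length : ℤ) + 2 ≤ k →
    (mt u).1 k = 0 ∧ (mt u).2 k = 0 := by
  induction u with
  | nil => intro k hk; exact ⟨tau_zero k (by simpa using hk), tau_zero k (by simpa using hk)⟩
  | cons b u ih =>
    intro k hk
    have hl : ((b :: u).length : ℤ) = u.length + 1 := by simp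
    rw [hl] at hk
    have h1 := ih (k - 1) (by omega)
    have h2 := ih k (by omega)
    have h3 := ih (k + 1) (by omega)
    cases b with
    | true =>
      rw [mt_true1, mt_true2, h1.1, h3.2, h2.2]
      norm_num
    | false =>
      rw [mt_false1, mt_false2, h1.1, h3.2, h2.1]
      norm_num

lemma ta_zero (u : List Bool) : ∀ k : ℤ, (u.length : ℤ) + 1 ≤ k →
    (ta u).1 k = 0 ∧ (ta u).2 k = 0 := by
  induction u with
  | nil =>
    intro k hk
    have h : one0 k = 0 := by
      unfold one0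
      rw [if_neg (by simp at hk; omega)]
    exact ⟨h, h⟩
  | cons b u ih =>
    intro k hk
    have hl : ((b :: u).length : ℤ) = u.length + 1 := by simp
    rw [hl] at hk
    have h1 := ih (k - 1) (by omega)
    have h2 := ih k (by omega)
    have h3 := ih (k + 1) (by omega)
    cases b with
    | true =>
      rw [ta_true1, ta_true2, h1.1, h3.2, h2.2]
      norm_num
    | false =>
      rw [ta_false1, ta_false2, h1.1, h3.2, h2.1]
      norm_num

lemma ta_rep1 (u : List Bool) (K : ℕ) (k : ℤ) :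
    (ta (List.replicate K false ++ u)).1 k = (ta u).1 k := by
  induction K with
  | zero => rfl
  | succ K ih => rw [List.replicate_succ, List.cons_append, ta_false1, ih]

lemma ta_rep2 (u : List Bool) (K : ℕ) : ∀ k : ℤ, (u.length : ℤ) + 2 ≤ k + K →
    (ta (List.replicate K false ++ u)).2 k = (mt u).1 k := by
  induction K with
  | zero =>
    intro k hk
    have hk' : (u.length : ℤ) + 2 ≤ k := by simpa using hk
    rw [(mt_zero u k hk').1]
    exact (ta_zero u k (by omega)).2
  | succ K ih =>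
    intro k hk
    push_cast at hk
    rw [List.replicate_succ, List.cons_append, ta_false2, ta_rep1, ih (k + 1) (by omega),
      ← (mt_rel u k).1]

lemma mt_one (u : List Bool) (K : ℕ) (hK : u.length ≤ K) :
    1 - (mt u).1 1 = dn (true :: (List.replicate K false ++ u)) := by
  unfold dn
  rw [ta_true1, ta_rep1, ta_rep2 u K (1 + 1) (by omega), ← (mt_rel u 1).1]

lemma vt_rep (u : List Bool) (K : ℕ) : vt (List.replicate K false ++ u) = 2 ^ K * vt u := by
  induction K with
  | zero => simp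
  | succ K ih =>
    rw [List.replicate_succ, List.cons_append]
    simp only [vt]
    rw [ih, pow_succ]
    ring

lemma tb_rep (n K i : ℕ) : (2 ^ K * n).testBit (K + i) = n.testBit i := by
  rw [Nat.testBit_two_pow_mul]
  simp

lemma tb_rep_lt (n K i : ℕ) (h : i < K) : (2 ^ K * n).testBit i = false := by
  rw [Nat.testBit_two_pow_mul]
  simp
  intro h'
  omega

theorem low_ge (u : List Bool) : 1 / 2 ≤ 1 - (mt u).1 1 := by
  rw [mt_one u u.length le_rfl]
  exact dn_ge _

theorem low_eq (u : List Bool) : 1 - (mt u).1 1 = 1 / 2 ↔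
    ∀ i j, i < j → (vt u).testBit i = true → (vt u).testBit j = true → s (vt u) ≤ j - i := by
  set K := u.length + s (vt u) with hK
  rw [mt_one u K (by omega), dn_eq_bits]
  have hs : s (vt (true :: (List.replicate K false ++ u))) = s (vt u) + 1 := by
    rw [s_vt, s_vt, List.count_cons_self, List.count_append, List.count_replicate]
    simp
  rw [hs]
  have hv : vt (true :: (List.replicate K false ++ u)) = 2 * (2 ^ K * vt u) + 1 := by
    simp only [vt, vt_rep]
  rw [hv]
  constructor
  · intro h i j hij hi hj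
    have := h (K + i + 1) (K + j + 1) (by omega) (by rw [tb_odd_succ, tb_rep]; exact hi)
      (by rw [tb_odd_succ, tb_rep]; exact hj)
    omega
  · intro h i j hij hi hj
    obtain ⟨j, rfl⟩ : ∃ j', j = j' + 1 := ⟨j - 1, by omega⟩
    rw [tb_odd_succ] at hj
    have hjK : K ≤ j := by
      by_contra hc
      rw [tb_rep_lt _ _ _ (by omega)] at hj
      exact absurd hj (by decide)
    obtain ⟨j, rfl⟩ := Nat.exists_eq_add_of_le hjK
    rw [tb_rep] at hj
    cases i with
    | zero => omega
    | succ i =>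
      rw [tb_odd_succ] at hi
      have hiK : K ≤ i := by
        by_contra hc
        rw [tb_rep_lt _ _ _ (by omega)] at hi
        exact absurd hi (by decide)
      obtain ⟨i, rfl⟩ := Nat.exists_eq_add_of_le hiK
      rw [tb_rep] at hi
      have := h i j (by omega) hi hj
      omega

theorem low_gap (u : List Bool) (h : 1 - (mt u).1 1 ≠ 1 / 2) :
    1 / 2 + 1 / 2 * (1 / 4 : ℝ) ^ (s (vt u) - 1) ≤ 1 - (mt u).1 1 := by
  rw [mt_one u u.length le_rfl] at h ⊢
  refine le_trans ?_ (dn_gap _ h)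
  have hc : (List.replicate u.length false ++ u).count true = u.count true := by
    rw [List.count_append, List.count_replicate]
    simp
  have e : s (vt u) - 1 = u.count true := by rw [s_vt]; omega
  rw [e, hc]
  have : (1 / 4 : ℝ) ^ u.count true ≤
      (1 / 4) ^ min (u.count true) ((List.replicate u.length false ++ u).count false + 1) :=
    pow_le_pow_of_le_one (by norm_num) (by norm_num) (min_le_left _ _)
  linarith

/-- **The measures `μ_t`.** -/
theorem mu_main (t : ℕ) (ht : 1 ≤ t) : ∃ (μ : ℤ → ℝ) (a b : ℝ),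
    (∀ d, Tendsto (fun N : ℕ => S (pt d) t N / N) atTop (𝓝 (μ d))) ∧ HasSum μ 1 ∧
    HasSum (fun d : ℕ => μ d) a ∧ HasSum (fun d : ℕ => μ (-(d : ℤ))) b ∧
    1 / 2 + 1 / 2 * (1 / 4 : ℝ) ^ s t ≤ a ∧ 1 / 2 ≤ b ∧
    (b = 1 / 2 ↔ ∀ i j, i < j → t.testBit i = true → t.testBit j = true → s t ≤ j - i) ∧
    (b ≠ 1 / 2 → 1 / 2 + 1 / 2 * (1 / 4 : ℝ) ^ (s t - 1) ≤ b) := by
  obtain ⟨u, rfl⟩ := exists_vt t ht
  obtain ⟨μ, h1, h2, c, h3, h4, h5⟩ := Pool.Agent.Y471.CK.main (vt u)
  have hp : Tendsto (fun M : ℕ => 2 ^ M) atTop (atTop : Filter ℕ) :=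
    tendsto_pow_atTop_atTop_of_one_lt (by norm_num : 1 < 2)
  have key : c - μ 0 = (mt u).1 1 := by
    have l1 := (h3.comp hp).sub ((h1 0).comp hp)
    obtain ⟨M0, hM0⟩ := dd_mt u 1
    have l2 : Tendsto (fun M : ℕ => dd (vt u) M 1) atTop (𝓝 ((mt u).1 1)) := by
      refine tendsto_const_nhds.congr' ?_
      filter_upwards [eventually_ge_atTop M0] with M hM
      exact (hM0 M hM).1.symm
    refine tendsto_nhds_unique (l1.congr fun M => ?_) l2
    simp only [Function.comp]
    unfold dd S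
    rw [← sub_div, ← sum_sub_distrib]
    push_cast
    congr 1
    refine sum_congr rfl fun n _ => ?_
    unfold Pool.Agent.Y471.CK.up pt ind Pool.Agent.Y471.CK.df
    by_cases hA : (Pool.Agent.Y471.CK.s n : ℤ) + 1 ≤ Pool.Agent.Y471.CK.s (n + vt u)
    · rw [if_pos hA, if_pos (by omega), if_neg (by omega)]; norm_num
    · rw [if_neg hA]
      by_cases hB : (Pool.Agent.Y471.CK.s (n + vt u) : ℤ) - Pool.Agent.Y471.CK.s n = 0
      · rw [if_pos hB, if_pos (by omega)]; norm_num
      · rw [if_neg hB, if_neg (by omega)]; norm_num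
  have hsum : Summable (fun n : ℕ => μ (-((n : ℤ) + 1))) := by
    refine h2.summable.comp_injective (i := fun n : ℕ => -((n : ℤ) + 1)) ?_
    intro a b hab
    simp only [neg_inj, add_left_inj, Nat.cast_inj] at hab
    exact hab
  obtain ⟨b', hb'⟩ := hsum
  have hcb : c + b' = 1 := (HasSum.of_nat_of_neg_add_one h4 hb').unique h2
  have hb : HasSum (fun d : ℕ => μ (-(d : ℤ))) (1 - (mt u).1 1) := by
    rw [← hasSum_nat_add_iff' 1]
    simp only [range_one, sum_singleton, Nat.cast_zero, neg_zero]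
    have e : 1 - (mt u).1 1 - μ 0 = b' := by rw [← key]; linarith
    rw [e]
    have e2 : (fun n : ℕ => μ (-((n + 1 : ℕ) : ℤ))) = fun n : ℕ => μ (-((n : ℤ) + 1)) := by
      funext n
      rw [Nat.cast_succ]
    rw [e2]
    exact hb'
  refine ⟨μ, c, _, h1, h2, h4, hb, h5, low_ge u, low_eq u, low_gap u⟩

end Pool.Agent.N708.MD
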